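import Mathlib

/-! The discretised area argument for squares with three vertices near two flat graphs and the
fourth vertex above the lower graph. -/

set_option autoImplicit false
open MeasureTheory intervalIntegral Set

namespace Pool.Agent.Y450.Bulge

/-- Lipschitz with constant `1/8` -/
def Flat8 (f : ℝ → ℝ) : Prop := ∀ x y, |f x - f y| ≤ |x - y| / 8

theorem Flat8.cont {f : ℝ → ℝ} (h : Flat8 f) : Continuous f := by
  have : LipschitzWith (1/8) f := by
    refine LipschitzWith.of_dist_le_mul fun x y => ?_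
    rw [Real.dist_eq, Real.dist_eq]
    have := h x y
    simp only [NNReal.coe_div, NNReal.coe_one, NNReal.coe_ofNat]
    linarith
  exact this.continuous

theorem Flat8.neg {f : ℝ → ℝ} (h : Flat8 f) : Flat8 (fun x => f (-x)) := by
  intro x y
  have := h (-x) (-y)
  rw [show -x - -y = -(x - y) by ring, abs_neg] at this
  exact this

/-- an antiderivative -/
noncomputable def Prim (f : ℝ → ℝ) (x : ℝ) : ℝ := ∫ t in (0:ℝ)..x, f t

theorem Flat8.trap {f : ℝ → ℝ} (h : Flat8 f) {a b : ℝ} (hab : a ≤ b) :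
    |Prim f b - Prim f a - (b - a) * (f a + f b) / 2| ≤ (b - a) ^ 2 / 16 := by
  have hc := h.cont
  have e1 : Prim f b - Prim f a = ∫ t in a..b, f t := by
    unfold Prim
    rw [integral_interval_sub_left (hc.intervalIntegrable _ _) (hc.intervalIntegrable _ _)]
  have e2 : (b - a) * (f a + f b) / 2 = ∫ t in a..b, (f a + f b) / 2 := by
    rw [intervalIntegral.integral_const, smul_eq_mul]; ring
  rw [e1, e2, ← intervalIntegral.integral_sub (hc.intervalIntegrable _ _)
    (continuous_const.intervalIntegrable _ _)]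
  have := norm_integral_le_of_norm_le_const (f := fun t => f t - (f a + f b) / 2)
    (C := (b - a) / 16) (a := a) (b := b) (fun t ht => by
      rw [uIoc_of_le hab] at ht
      have h1 := h t a
      have h2 := h b t
      rw [abs_of_nonneg (by linarith [ht.1] : 0 ≤ t - a)] at h1
      rw [abs_of_nonneg (by linarith [ht.2] : 0 ≤ b - t)] at h2
      rw [abs_le] at h1 h2
      rw [Real.norm_eq_abs, abs_le]
      constructor <;> linarith [h1.1, h1.2, h2.1, h2.2])
  rw [Real.norm_eq_abs, abs_of_nonneg (by linarith : 0 ≤ b - a)] at this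
  calc _ ≤ _ := this
    _ = (b - a) ^ 2 / 16 := by ring

/-- a square with upper left vertex `(x, p)`, lower left vertex `(x + d, p - l)`, upper right vertex
`(x + l, p + d)` and lower right vertex `(x + d + l, p - l + d)`; the first three are near the
graphs, the last one is almost above the lower graph. -/
structure Sqr (T B : ℝ → ℝ) (ε x p d l : ℝ) : Prop where
  l0 : 0 ≤ l
  h1 : |p - T x| ≤ ε
  h2 : |p - l - B (x + d)| ≤ ε
  h3 : |p + d - T (x + l)| ≤ ε
  h4 : B (x + d + l) - ε ≤ p - l + d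

/-- the potential -/
noncomputable def Pot (T B : ℝ → ℝ) (x d l : ℝ) : ℝ :=
  (d ^ 2 - l ^ 2) / 2 + (Prim T (x + l) - Prim T x) - (Prim B (x + d + l) - Prim B (x + d))

variable {T B : ℝ → ℝ} {ε : ℝ}

theorem Sqr.steps (hT : Flat8 T) (hB : Flat8 B) {x p d l r p' d' l' : ℝ}
    (S : Sqr T B ε x p d l) (S' : Sqr T B ε (x + r) p' d' l') (hr : 22 * ε ≤ r) (hε : 0 < ε) :
    |d' - d| + |l' - l| ≤ r := by
  have a1 := S.h1
  have a2 := S.h2
  have a3 := S.h3
  have b1 := S'.h1
  have b2 := S'.h2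
  have b3 := S'.h3
  have t1 := hT (x + r) x
  have t2 := hT (x + r + l') (x + l)
  have t3 := hB (x + r + d') (x + d)
  rw [show x + r - x = r by ring, abs_of_nonneg (by linarith : 0 ≤ r)] at t1
  have s2 : |x + r + l' - (x + l)| ≤ r + |l' - l| := by
    rw [show x + r + l' - (x + l) = r + (l' - l) by ring]
    exact (abs_add_le _ _).trans (by rw [abs_of_nonneg (by linarith : 0 ≤ r)])
  have s3 : |x + r + d' - (x + d)| ≤ r + |d' - d| := by
    rw [show x + r + d' - (x + d) = r + (d' - d) by ring]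
    exact (abs_add_le _ _).trans (by rw [abs_of_nonneg (by linarith : 0 ≤ r)])
  have hd : |d' - d| ≤ r / 4 + |l' - l| / 8 + 4 * ε := by
    rw [abs_le] at a1 a3 b1 b3 t1 t2 ⊢
    constructor <;> linarith [a1.1, a1.2, a3.1, a3.2, b1.1, b1.2, b3.1, b3.2, t1.1, t1.2, t2.1, t2.2]
  have hl : |l' - l| ≤ r / 4 + |d' - d| / 8 + 4 * ε := by
    rw [abs_le] at a1 a2 b1 b2 t1 t3 ⊢
    constructor <;> linarith [a1.1, a1.2, a2.1, a2.2, b1.1, b1.2, b2.1, b2.2, t1.1, t1.2, t3.1, t3.2]
  linarith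

theorem Sqr.mono (hT : Flat8 T) (hB : Flat8 B) {x p d l r p' d' l' : ℝ}
    (S : Sqr T B ε x p d l) (S' : Sqr T B ε (x + r) p' d' l') (hr : 22 * ε ≤ r) (hr' : r ≤ 23 * ε)
    (hε : 0 < ε) :
    Pot T B x d l - 26 * ε * r ≤ Pot T B (x + r) d' l' := by
  have hs := S.steps hT hB S' hr hε
  obtain ⟨q1, q2⟩ := abs_le.1 (le_refl |d' - d|)
  obtain ⟨q3, q4⟩ := abs_le.1 (le_refl |l' - l|)
  have r0 : 0 ≤ r := by linarith
  -- increments
  have w1 : x ≤ x + r := by linarith
  have w2 : x + d ≤ x + r + d' := by linarith [abs_nonneg (l' - l)]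
  have w3 : x + l ≤ x + r + l' := by linarith [abs_nonneg (d' - d)]
  have w4 : x + d + l ≤ x + r + d' + l' := by linarith
  have k1 := (abs_le.1 (hT.trap w1))
  have k2 := (abs_le.1 (hB.trap w2))
  have k3 := (abs_le.1 (hT.trap w3))
  have k4 := (abs_le.1 (hB.trap w4))
  have a1 := abs_le.1 S.h1
  have a2 := abs_le.1 S.h2
  have a3 := abs_le.1 S.h3
  have a4 := S.h4
  have b1 := abs_le.1 S'.h1
  have b2 := abs_le.1 S'.h2
  have b3 := abs_le.1 S'.h3
  have b4 := S'.h4
  set u := d' - d with hu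
  set v := l' - l with hv
  -- the four terms
  have m1 : -(ε * r) - r ^ 2 / 16 ≤ r * (p + p') / 2 - (Prim T (x + r) - Prim T x) := by
    have := k1.2
    rw [show x + r - x = r by ring] at this
    linarith [mul_nonneg r0 (by linarith [a1.1] : 0 ≤ p - T x + ε),
      mul_nonneg r0 (by linarith [b1.1] : 0 ≤ p' - T (x + r) + ε)]
  have m2 : -(ε * (r + u)) - (r + u) ^ 2 / 16 ≤
      -((r + u) * ((p - l) + (p' - l')) / 2) + (Prim B (x + r + d') - Prim B (x + d)) := by
    have := k2.1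
    rw [show x + r + d' - (x + d) = r + u by rw [hu]; ring] at this
    have z : 0 ≤ r + u := by rw [hu]; linarith
    linarith [mul_nonneg z (by linarith [a2.2] : 0 ≤ ε - (p - l - B (x + d))),
      mul_nonneg z (by linarith [b2.2] : 0 ≤ ε - (p' - l' - B (x + r + d')))]
  have m3 : -(ε * (r + u + v)) - (r + u + v) ^ 2 / 16 ≤
      (r + u + v) * ((p - l + d) + (p' - l' + d')) / 2 -
        (Prim B (x + r + d' + l') - Prim B (x + d + l)) := by
    have := k4.2
    rw [show x + r + d' + l' - (x + d + l) = r + u + v by rw [hu, hv]; ring] at this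
    have z : 0 ≤ r + u + v := by rw [hu, hv]; linarith
    linarith [mul_nonneg z (by linarith : 0 ≤ p - l + d - (B (x + d + l) - ε)),
      mul_nonneg z (by linarith : 0 ≤ p' - l' + d' - (B (x + r + d' + l') - ε))]
  have m4 : -(ε * (r + v)) - (r + v) ^ 2 / 16 ≤
      -((r + v) * ((p + d) + (p' + d')) / 2) + (Prim T (x + r + l') - Prim T (x + l)) := by
    have := k3.1
    rw [show x + r + l' - (x + l) = r + v by rw [hv]; ring] at this
    have z : 0 ≤ r + v := by rw [hv]; linarith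
    linarith [mul_nonneg z (by linarith [a3.2] : 0 ≤ ε - (p + d - T (x + l))),
      mul_nonneg z (by linarith [b3.2] : 0 ≤ ε - (p' + d' - T (x + r + l')))]
  have id1 : (d' ^ 2 - l' ^ 2) / 2 - (d ^ 2 - l ^ 2) / 2 =
      r * (p + p') / 2 - (r + u) * ((p - l) + (p' - l')) / 2 +
      (r + u + v) * ((p - l + d) + (p' - l' + d')) / 2 - (r + v) * ((p + d) + (p' + d')) / 2 := by
    rw [hu, hv]; ring
  have e1 : (r + u) ≤ 2 * r := by linarith [abs_nonneg v]
  have e2 : (r + v) ≤ 2 * r := by linarith [abs_nonneg u]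
  have e3 : (r + u + v) ≤ 2 * r := by linarith
  have f1 : 0 ≤ r + u := by linarith [abs_nonneg v]
  have f2 : 0 ≤ r + v := by linarith [abs_nonneg u]
  have f3 : 0 ≤ r + u + v := by linarith
  have g1 : (r + u) ^ 2 ≤ (2 * r) ^ 2 := pow_le_pow_left₀ f1 e1 2
  have g2 : (r + v) ^ 2 ≤ (2 * r) ^ 2 := pow_le_pow_left₀ f2 e2 2
  have g3 : (r + u + v) ^ 2 ≤ (2 * r) ^ 2 := pow_le_pow_left₀ f3 e3 2
  have g4 : ε * (r + u) ≤ ε * (2 * r) := mul_le_mul_of_nonneg_left e1 hε.le
  have g5 : ε * (r + v) ≤ ε * (2 * r) := mul_le_mul_of_nonneg_left e2 hε.le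
  have g6 : ε * (r + u + v) ≤ ε * (2 * r) := mul_le_mul_of_nonneg_left e3 hε.le
  have g7 : r * r ≤ 23 * ε * r := mul_le_mul_of_nonneg_right hr' r0
  unfold Pot
  linarith

end Pool.Agent.Y450.Bulge
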