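import Pool.Agent.Y450.Bulge.Area

/-! The discretised area argument: conclusion. -/

set_option autoImplicit false
open MeasureTheory intervalIntegral Set

namespace Pool.Agent.Y450.Bulge

variable {T B : ℝ → ℝ} {ε : ℝ}

theorem Sqr.d_le (hT : Flat8 T) {x p d l : ℝ} (S : Sqr T B ε x p d l) : |d| ≤ l / 8 + 2 * ε := by
  have a1 := abs_le.1 S.h1
  have a3 := abs_le.1 S.h3
  have t := hT (x + l) x
  rw [show x + l - x = l by ring, abs_of_nonneg S.l0] at t
  have t' := abs_le.1 t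
  rw [abs_le]
  constructor <;> linarith [a1.1, a1.2, a3.1, a3.2, t'.1, t'.2]

theorem Sqr.l_near (hT : Flat8 T) (hB : Flat8 B) {x p d l : ℝ} (S : Sqr T B ε x p d l) :
    |l - (T x - B x)| ≤ l / 64 + 9 / 4 * ε := by
  have h0 := S.d_le hT
  have a1 := abs_le.1 S.h1
  have a2 := abs_le.1 S.h2
  have t := hB (x + d) x
  rw [show x + d - x = d by ring] at t
  have t' := abs_le.1 t
  rw [abs_le]
  constructor <;> linarith [a1.1, a1.2, a2.1, a2.2, t'.1, t'.2]

theorem Sqr.pot_lower (hT : Flat8 T) (hB : Flat8 B) {x p d l L : ℝ} (S : Sqr T B ε x p d l)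
    (hε : 0 < ε) (hL : L ≤ T x - B x) (hεL : 400 * ε ≤ L) :
    354 / 1000 * L ^ 2 ≤ Pot T B x d l := by
  have l0 := S.l0
  have hn := abs_le.1 (S.l_near hT hB)
  have k1 := abs_le.1 (hT.trap (by linarith : x ≤ x + l))
  have k2 := abs_le.1 (hB.trap (by linarith : x + d ≤ x + d + l))
  rw [show x + l - x = l by ring] at k1
  rw [show x + d + l - (x + d) = l by ring] at k2
  have a1 := abs_le.1 S.h1
  have a2 := abs_le.1 S.h2
  have a3 := abs_le.1 S.h3
  have a4 := S.h4
  have q1 := mul_nonneg l0 (by linarith [a1.2] : 0 ≤ ε - (p - T x))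
  have q2 := mul_nonneg l0 (by linarith [a3.2] : 0 ≤ ε - (p + d - T (x + l)))
  have q3 := mul_nonneg l0 (by linarith [a2.1] : 0 ≤ p - l - B (x + d) + ε)
  have q4 := mul_nonneg l0 (by linarith : 0 ≤ p - l + d - B (x + d + l) + ε)
  have q5 : 0 ≤ d ^ 2 := sq_nonneg d
  have main : 3 / 8 * l ^ 2 - 2 * ε * l ≤ Pot T B x d l := by
    unfold Pot
    linarith [k1.1, k2.2]
  have hl : 979 / 1000 * L ≤ l := by linarith [hn.1]
  have hL0 : 0 < L := by linarith
  have h2 : 3621 / 10000 * L ≤ 3 / 8 * l - 2 * ε := by linarith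
  have h3 : (979 / 1000 * L) * (3621 / 10000 * L) ≤ l * (3 / 8 * l - 2 * ε) :=
    mul_le_mul hl h2 (by positivity) l0
  have h4 : 354 / 1000 * L ^ 2 ≤ (979 / 1000 * L) * (3621 / 10000 * L) := by
    have : 0 ≤ L ^ 2 := sq_nonneg L
    nlinarith
  linarith

theorem Sqr.pot_upper (hT : Flat8 T) (hB : Flat8 B) {x p d l L : ℝ} (S : Sqr T B ε x p d l)
    (hε : 0 < ε) (hL : T x - B x ≤ L / 2) (hεL : 400 * ε ≤ L) :
    Pot T B x d l ≤ 205 / 1000 * L ^ 2 := by
  have l0 := S.l0
  have hn := abs_le.1 (S.l_near hT hB)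
  have hd := S.d_le hT
  have k1 := abs_le.1 (hT.trap (by linarith : x ≤ x + l))
  have k2 := abs_le.1 (hB.trap (by linarith : x + d ≤ x + d + l))
  rw [show x + l - x = l by ring] at k1
  rw [show x + d + l - (x + d) = l by ring] at k2
  have a1 := abs_le.1 S.h1
  have a2 := abs_le.1 S.h2
  have a3 := abs_le.1 S.h3
  have t := hB (x + d + l) (x + d)
  rw [show x + d + l - (x + d) = l by ring, abs_of_nonneg l0] at t
  have t' := abs_le.1 t
  have q1 := mul_nonneg l0 (by linarith [a1.1] : 0 ≤ ε + (p - T x))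
  have q2 := mul_nonneg l0 (by linarith [a3.1] : 0 ≤ ε + (p + d - T (x + l)))
  have q3 := mul_nonneg l0 (by linarith [a2.2] : 0 ≤ ε - (p - l - B (x + d)))
  have q4 := mul_nonneg l0 (by linarith [t'.1] : 0 ≤ B (x + d + l) - B (x + d) + l / 8)
  have main : Pot T B x d l ≤ d ^ 2 / 2 + l * d / 2 + 11 / 16 * l ^ 2 + 2 * ε * l := by
    unfold Pot
    linarith [k1.2, k2.1]
  have hL0 : 0 < L := by linarith
  have hl : l ≤ 514 / 1000 * L := by linarith [hn.2]
  have hd1 : |d| ≤ 693 / 10000 * L := by linarith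
  have hd2 : d ^ 2 ≤ (693 / 10000 * L) ^ 2 := by
    rw [← sq_abs]; exact pow_le_pow_left₀ (abs_nonneg _) hd1 2
  have hld : l * d ≤ (514 / 1000 * L) * (693 / 10000 * L) :=
    (mul_le_mul_of_nonneg_left (le_abs_self d) l0).trans
      (mul_le_mul hl hd1 (abs_nonneg _) (by positivity))
  have hl2 : l ^ 2 ≤ (514 / 1000 * L) ^ 2 := pow_le_pow_left₀ l0 hl 2
  have hεl : ε * l ≤ (1 / 400 * L) * (514 / 1000 * L) :=
    mul_le_mul (by linarith) hl l0 (by positivity)
  have : 0 ≤ L ^ 2 := sq_nonneg L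
  nlinarith

theorem area_main (hT : Flat8 T) (hB : Flat8 B) {a b L : ℝ} (hab : a < b) (hε : 0 < ε)
    (hL : 0 < L) (ha : L ≤ T a - B a) (hb : T b - B b ≤ L / 2)
    (hsz : 200 * ε * (b - a) ≤ L ^ 2) (S : ∀ x ∈ Icc a b, ∃ p d l, Sqr T B ε x p d l) : False := by
  have hD : 2 * L ≤ b - a := by
    have t1 := (abs_le.1 (hT a b)).2
    have t2 := (abs_le.1 (hB a b)).1
    rw [abs_sub_comm, abs_of_pos (by linarith : 0 < b - a)] at t1 t2
    linarith
  have hεL : 400 * ε ≤ L := by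
    have h1 : 400 * ε * L ≤ L * L := by nlinarith [mul_le_mul_of_nonneg_left hD hε.le]
    exact le_of_mul_le_mul_right h1 hL
  have S' : ∀ x, ∃ q : ℝ × ℝ × ℝ, x ∈ Icc a b → Sqr T B ε x q.1 q.2.1 q.2.2 := by
    intro x
    by_cases hx : x ∈ Icc a b
    · obtain ⟨p, d, l, h⟩ := S x hx
      exact ⟨(p, d, l), fun _ => h⟩
    · exact ⟨0, fun h => absurd h hx⟩
  choose q hq using S'
  set N : ℕ := ⌊(b - a) / (22 * ε)⌋₊ with hN
  have hN1 : (N : ℝ) ≤ (b - a) / (22 * ε) := Nat.floor_le (by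
    apply div_nonneg <;> linarith)
  have hN2 : (b - a) / (22 * ε) < N + 1 := Nat.lt_floor_add_one _
  rw [le_div_iff₀ (by linarith)] at hN1
  rw [div_lt_iff₀ (by linarith)] at hN2
  have hN3 : (30 : ℝ) ≤ N := by
    by_contra hcon
    push Not at hcon
    nlinarith
  have hN0 : (0:ℝ) < N := by linarith
  set r : ℝ := (b - a) / N with hr
  have hrN : r * N = b - a := by rw [hr]; field_simp
  have r1 : 22 * ε ≤ r := by
    rw [hr, le_div_iff₀ hN0]; linarith
  have r2 : r ≤ 23 * ε := by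
    rw [hr, div_le_iff₀ hN0]; nlinarith
  have r0 : 0 < r := by linarith
  have ind : ∀ j : ℕ, j ≤ N → Pot T B a (q a).2.1 (q a).2.2 - 26 * ε * r * j ≤
      Pot T B (a + j * r) (q (a + j * r)).2.1 (q (a + j * r)).2.2 := by
    intro j
    induction j with
    | zero => intro _; simp
    | succ j ih =>
      intro hj
      have h1 := ih (by omega)
      have hjN : ((j : ℝ) + 1) ≤ N := by exact_mod_cast hj
      have m1 : a + j * r ∈ Icc a b := by
        constructor
        · have : 0 ≤ (j:ℝ) * r := by positivity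
          linarith
        · nlinarith
      have m2 : a + j * r + r ∈ Icc a b := by
        constructor
        · have : 0 ≤ (j:ℝ) * r := by positivity
          linarith
        · nlinarith
      have h2 := (hq _ m1).mono hT hB (hq _ m2) r1 r2 hε
      have e : a + ((j + 1 : ℕ) : ℝ) * r = a + j * r + r := by push_cast; ring
      rw [e]
      push_cast
      linarith
  have h := ind N le_rfl
  have e : a + (N : ℝ) * r = b := by linarith
  rw [e] at h
  have h1 := (hq a ⟨le_rfl, hab.le⟩).pot_lower hT hB hε ha hεL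
  have h2 := (hq b ⟨hab.le, le_rfl⟩).pot_upper hT hB hε hb hεL
  have h3 : 26 * ε * r * N = 26 * ε * (b - a) := by rw [mul_assoc, hrN]
  have : 0 < L ^ 2 := by positivity
  linarith

end Pool.Agent.Y450.Bulge
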