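import Pool.Agent.Y450.Bulge.Geo

/-! Corridors: the branch of the angle, and the squares with three vertices on the curve. -/

set_option autoImplicit false
open Complex Set Topology Metric

namespace Pool.Agent.Y450.Bulge

open Pool.Agent.H763R2 Pool.Agent.H763R2.An Pool.Agent.H765R3.Peg Pool.Agent.W675.Peg
open Pool.Agent.H763R2.Dm (NoSq)

variable {c : ℝ → ℂ} {T B : ℝ → ℝ} {ε H a b t1 t2 t3 : ℝ} {θ : ℝ → ℝ → ℝ} {g : ℤ}

theorem Out.not {x y : ℝ} (h : Out c x y) : ¬ (0 < mgc c (DD c x y) ∧ 0 < mgc c (CC c x y)) :=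
  fun k => absurd k.1 (not_lt.2 h.1.le)

/-- the angle of a chord with both further vertices outside -/
theorem out_range (A : Ang c (mgc c) θ g) {x y : ℝ} (h1 : x < y) (h2 : y < x + 1)
    (h : Out c x y) : Real.pi + Nf θ x y * (2 * Real.pi) < θ x y ∧
      θ x y < 3 * Real.pi / 2 + Nf θ x y * (2 * Real.pi) := by
  have hπ := Real.pi_pos
  have hc := (A.sx h1 h2).1.1 h.1
  have hs := (A.sy h1 h2).1.1 h.2
  set k : ℤ := Nf θ x y with hk
  have f1 : (k : ℝ) ≤ (θ x y - Real.pi / 2) / (2 * Real.pi) := Int.floor_le _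
  have f2 : (θ x y - Real.pi / 2) / (2 * Real.pi) < k + 1 := Int.lt_floor_add_one _
  rw [le_div_iff₀ (by positivity)] at f1
  rw [div_lt_iff₀ (by positivity)] at f2
  set φ : ℝ := θ x y - k * (2 * Real.pi) with hφ
  have e : θ x y = φ + k * (2 * Real.pi) := by rw [hφ]; ring
  rw [e, Real.cos_add_int_mul_two_pi] at hc
  rw [e, Real.sin_add_int_mul_two_pi] at hs
  have u1 : Real.pi / 2 ≤ φ := by rw [hφ]; linarith
  have u2 : φ < 5 * Real.pi / 2 := by rw [hφ]; linarith
  have v1 : Real.pi < φ := by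
    by_contra hcon
    push Not at hcon
    exact absurd (Real.sin_nonneg_of_nonneg_of_le_pi (by linarith) hcon) (not_le.2 hs)
  have v2 : φ < 3 * Real.pi / 2 := by
    by_contra hcon
    push Not at hcon
    have := Real.cos_nonneg_of_neg_pi_div_two_le_of_le (x := φ - 2 * Real.pi)
      (by linarith) (by linarith)
    rw [Real.cos_sub_two_pi] at this
    linarith
  constructor <;> rw [e] <;> linarith

/-- intermediate values of an angle -/
theorem cross {f : ℝ → ℝ} {u v : ℝ} (huv : u ≤ v) (hf : ContinuousOn f (Icc u v)) {k1 k2 : ℤ}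
    (hk : k1 ≠ k2) (h1 : Real.pi + k1 * (2 * Real.pi) < f u)
    (h1' : f u < 3 * Real.pi / 2 + k1 * (2 * Real.pi))
    (h2 : Real.pi + k2 * (2 * Real.pi) < f v)
    (h2' : f v < 3 * Real.pi / 2 + k2 * (2 * Real.pi)) {α : ℝ} (hα : 0 ≤ α)
    (hα' : α ≤ Real.pi / 2) : ∃ y ∈ Icc u v, ∃ m : ℤ, f y = α + m * (2 * Real.pi) := by
  have hπ := Real.pi_pos
  rcases lt_or_gt_of_ne hk with h | h
  · have hk' : (k1 : ℝ) + 1 ≤ k2 := by exact_mod_cast h
    have : α + k2 * (2 * Real.pi) ∈ Icc (f u) (f v) := by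
      constructor <;> nlinarith
    obtain ⟨y, hy, e⟩ := intermediate_value_Icc huv hf this
    exact ⟨y, hy, k2, e⟩
  · have hk' : (k2 : ℝ) + 1 ≤ k1 := by exact_mod_cast h
    have : α + k1 * (2 * Real.pi) ∈ Icc (f v) (f u) := by
      constructor <;> nlinarith
    obtain ⟨y, hy, e⟩ := intermediate_value_Icc' huv hf this
    exact ⟨y, hy, k1, e⟩

/-- the parameters at the place `x` -/
structure Place (c : ℝ → ℂ) (H x t1 t2 t3 s u v : ℝ) : Prop where
  s0 : 0 < s
  s1 : s ≤ t1
  es : (c s).re = x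
  u0 : t2 ≤ u
  uv : u ≤ v
  v1 : v ≤ t3
  eu : (c u).re = x + 5 / 2 * H
  ev : (c v).re = x - 5 / 2 * H

theorem Cor.H0 (K : Cor c T B ε H a b t1 t2 t3) : 0 < H := by linarith [K.ε0, K.εH]

theorem Cor.re1 (K : Cor c T B ε H a b t1 t2 t3) : (c 1).re ≤ a := K.lft 1 ⟨K.o4.le, le_rfl⟩

theorem Cor.place (K : Cor c T B ε H a b t1 t2 t3) {x : ℝ} (h1 : a + 5 / 2 * H ≤ x)
    (h2 : x ≤ b - 5 / 2 * H) : ∃ s u v, Place c H x t1 t2 t3 s u v := by
  have H0 := K.H0
  have hc : Continuous fun t => (c t).re := continuous_re.comp K.loop.cont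
  have c0 : (c 0).re ≤ a := by
    have := K.loop.per 0
    rw [zero_add] at this
    rw [← this]
    exact K.re1
  have ct1 := K.rgt t1 ⟨le_rfl, K.o2.le⟩
  have ct2 := K.rgt t2 ⟨K.o2.le, le_rfl⟩
  have ct3 := K.lft t3 ⟨le_rfl, K.o4.le⟩
  obtain ⟨s, hs, es⟩ := intermediate_value_Icc K.o1.le hc.continuousOn
    (show x ∈ Icc (c 0).re (c t1).re from ⟨by linarith, by linarith⟩)
  obtain ⟨u, hu, eu⟩ := intermediate_value_Icc' K.o3.le hc.continuousOn
    (show x + 5 / 2 * H ∈ Icc (c t3).re (c t2).re from ⟨by linarith, by linarith⟩)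
  simp only at es eu
  obtain ⟨v, hv, ev⟩ := intermediate_value_Icc' hu.2 hc.continuousOn
    (show x - 5 / 2 * H ∈ Icc (c t3).re (c u).re from ⟨by linarith, by linarith⟩)
  simp only at ev
  refine ⟨s, u, v, ?_, hs.2, es, hu.1, hv.1, hv.2, eu, ev⟩
  rcases eq_or_lt_of_le hs.1 with h | h
  · exfalso
    rw [← h] at es
    linarith
  · exact h

/-- the branches at the place `x` -/
theorem Cor.branches (K : Cor c T B ε H a b t1 t2 t3) (A : Ang c (mgc c) θ g) {x s u v : ℝ}
    (h1 : a + 5 / 2 * H ≤ x) (h2 : x ≤ b - 5 / 2 * H) (P : Place c H x t1 t2 t3 s u v) :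
    Nf θ s u = Nf θ 0 t2 ∧ Nf θ s v = Nf θ t1 t3 ∧ Nf θ u (1 + s) = Nf θ t1 t3 ∧
      Nf θ v (1 + s) = Nf θ 0 t2 + g := by
  have H0 := K.H0
  have o1 := K.o1
  have o2 := K.o2
  have o3 := K.o3
  have o4 := K.o4
  have ε0 := K.ε0
  have εH := K.εH
  have s0 := P.s0
  have s1 := P.s1
  have u0 := P.u0
  have uv := P.uv
  have v1 := P.v1
  have es := P.es
  have eu := P.eu
  have ev := P.ev
  have ct2 := K.rgt t2 ⟨K.o2.le, le_rfl⟩
  have ct3 := K.lft t3 ⟨le_rfl, K.o4.le⟩
  have per : ∀ t, c (1 + t) = c t := fun t => by rw [add_comm]; exact K.loop.per t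
  have far : ∀ x' y' : ℝ, 23 / 10 * H ≤ |(c y').re - (c x').re| →
      ¬ (0 < mgc c (DD c x' y') ∧ 0 < mgc c (CC c x' y')) := fun x' y' h => (K.far h).not
  have tops : ∀ t, 0 ≤ t → t ≤ s → (c t).re ≤ x + ε := fun t k1 k2 => by
    have := K.topm t s k1 k2 s1; rw [es] at this; exact this
  have tops' : ∀ t, s ≤ t → t ≤ t1 → x - ε ≤ (c t).re := fun t k1 k2 => by
    have := K.topm s t s0.le k1 k2; rw [es] at this; linarith
  have botu : ∀ t, t2 ≤ t → t ≤ u → x + 5 / 2 * H - ε ≤ (c t).re := fun t k1 k2 => by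
    have := K.botm t u k1 k2 (by linarith); rw [eu] at this; linarith
  have botv : ∀ t, v ≤ t → t ≤ t3 → (c t).re ≤ x - 5 / 2 * H + ε := fun t k1 k2 => by
    have := K.botm v t (by linarith) k1 k2; rw [ev] at this; linarith
  refine ⟨?_, ?_, ?_, ?_⟩
  · have e1 : Nf θ 0 t2 = Nf θ s t2 := A.Nf_x (by linarith) s0.le (by linarith)
      fun t ht => far _ _ (le_abs.2 (Or.inl (by linarith [tops t ht.1 ht.2])))
    have e2 : Nf θ s t2 = Nf θ s u := A.Nf_y (by linarith) u0 (by linarith)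
      fun t ht => far _ _ (le_abs.2 (Or.inl (by rw [es]; linarith [botu t ht.1 ht.2])))
    rw [e1, e2]
  · have e1 : Nf θ s v = Nf θ s t3 := A.Nf_y (by linarith) v1 (by linarith)
      fun t ht => far _ _ (le_abs.2 (Or.inr (by rw [es]; linarith [botv t ht.1 ht.2])))
    have e2 : Nf θ s t3 = Nf θ t1 t3 := A.Nf_x (by linarith) s1 (by linarith)
      fun t ht => far _ _ (le_abs.2 (Or.inr (by linarith [tops' t ht.1 ht.2])))
    rw [e1, e2]
  · have e1 : Nf θ t1 t3 = Nf θ t2 t3 := A.Nf_x (by linarith) o2.le o3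
      fun t ht => far _ _ (le_abs.2 (Or.inr (by linarith [K.rgt t ht])))
    have e2 : Nf θ t2 t3 = Nf θ t2 1 := A.Nf_y o3 o4.le (by linarith)
      fun t ht => far _ _ (le_abs.2 (Or.inr (by linarith [K.lft t ht])))
    have e3 : Nf θ t2 1 = Nf θ t2 (1 + s) := A.Nf_y (by linarith) (by linarith) (by linarith)
      fun t ht => far _ _ (le_abs.2 (Or.inr (by
        have := tops (t - 1) (by linarith [ht.1]) (by linarith [ht.2])
        have e := per (t - 1)
        rw [show 1 + (t - 1) = t by ring] at e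
        rw [e]
        linarith)))
    have e4 : Nf θ t2 (1 + s) = Nf θ u (1 + s) := A.Nf_x (by linarith) u0 (by linarith)
      fun t ht => far _ _ (le_abs.2 (Or.inr (by rw [per, es]; linarith [botu t ht.1 ht.2])))
    rw [e1, e2, e3, e4]
  · have e1 : Nf θ v (1 + s) = Nf θ t3 (1 + s) := A.Nf_x (by linarith) v1 (by linarith)
      fun t ht => far _ _ (le_abs.2 (Or.inl (by rw [per, es]; linarith [botv t ht.1 ht.2])))
    have e2 : Nf θ t3 (1 + s) = Nf θ 1 (1 + s) := A.Nf_x (by linarith) o4.le (by linarith)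
      fun t ht => far _ _ (le_abs.2 (Or.inl (by rw [per, es]; linarith [K.lft t ht])))
    have e3 : Nf θ 1 (1 + s) = Nf θ 1 (1 + t1) := A.Nf_y (by linarith) (by linarith) (by linarith)
      fun t ht => far _ _ (le_abs.2 (Or.inl (by
        have := tops' (t - 1) (by linarith [ht.1]) (by linarith [ht.2])
        have e := per (t - 1)
        rw [show 1 + (t - 1) = t by ring] at e
        rw [e]
        linarith [K.re1])))
    have e4 : Nf θ 1 (1 + t1) = Nf θ 1 (1 + t2) := A.Nf_y (by linarith) (by linarith)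
      (by linarith)
      fun t ht => far _ _ (le_abs.2 (Or.inl (by
        have := K.rgt (t - 1) ⟨by linarith [ht.1], by linarith [ht.2]⟩
        have e := per (t - 1)
        rw [show 1 + (t - 1) = t by ring] at e
        rw [e]
        linarith [K.re1])))
    have e5 := A.Nf_per (x := 0) (y := t2) (by linarith) (by linarith)
    rw [zero_add, add_comm t2 1] at e5
    rw [e1, e2, e3, e4, e5]

/-- common bounds -/
theorem Cor.bounds (K : Cor c T B ε H a b t1 t2 t3) {x s y : ℝ} (hs : s ∈ Icc 0 t1)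
    (es : (c s).re = x) (hd : |(c y).re - x| ≤ 23 / 10 * H) :
    T x - B x ≤ 2 * H + 2 * ε ∧ |(c s).im - (c y).im| ≤ 229 / 100 * H := by
  have H0 := K.H0
  have h1 := abs_le.1 (K.top s hs)
  have h2 := abs_le.1 (K.hgt s)
  have h3 := abs_le.1 (K.hgt y)
  have h4 := abs_le.1 (K.fT (c y).re x)
  have h5 := abs_le.1 (K.fB (c y).re x)
  rw [es] at h1 h2
  refine ⟨by linarith [h1.1, h1.2, h2.1, h2.2], ?_⟩
  rw [abs_le]
  constructor <;> linarith [h2.1, h2.2, h3.1, h3.2, h4.1, h4.2, h5.1, h5.2]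

/-- first case: squares to the right -/
theorem Cor.sqr_right (K : Cor c T B ε H a b t1 t2 t3) (A : Ang c (mgc c) θ g)
    (hne : Nf θ 0 t2 ≠ Nf θ t1 t3) {x : ℝ} (h1 : a + 5 / 2 * H ≤ x) (h2 : x ≤ b - 5 / 2 * H) :
    ∃ p d l, Sqr T B ε x p d l := by
  have H0 := K.H0
  have hπ := Real.pi_pos
  obtain ⟨s, u, v, P⟩ := K.place h1 h2
  have o1 := K.o1
  have o2 := K.o2
  have o3 := K.o3
  have o4 := K.o4
  have s0 := P.s0
  have s1 := P.s1
  have u0 := P.u0
  have uv := P.uv
  have v1 := P.v1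
  obtain ⟨b1, b2, -, -⟩ := K.branches A h1 h2 P
  have ou : Out c s u := K.far (by rw [P.es, P.eu]; exact le_abs.2 (Or.inl (by linarith)))
  have ov : Out c s v := K.far (by rw [P.es, P.ev]; exact le_abs.2 (Or.inr (by linarith)))
  have ru := out_range A (by linarith : s < u) (by linarith) ou
  have rv := out_range A (by linarith : s < v) (by linarith) ov
  rw [b1] at ru
  rw [b2] at rv
  obtain ⟨y, hy, m, e⟩ := cross (f := fun y => θ s y) uv
    (A.cont.comp (f := fun y : ℝ => (s, y)) (by fun_prop) fun y hy =>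
      ⟨by simp only; linarith [hy.1], by simp only; linarith [hy.2]⟩)
    hne ru.1 ru.2 rv.1 rv.2 (α := Real.pi / 2) (by positivity) le_rfl
  obtain ⟨ρ, hρ, m1, m2⟩ := A.ex s y (by linarith [hy.1]) (by linarith [hy.2])
  rw [e, Real.cos_add_int_mul_two_pi, Real.cos_pi_div_two, mul_zero] at m1
  rw [e, Real.sin_add_int_mul_two_pi, Real.sin_pi_div_two, mul_one] at m2
  have hd : |(c y).re - x| ≤ 23 / 10 * H := by
    by_contra hcon
    push Not at hcon
    have := (K.far (x := s) (y := y) (by rw [P.es]; exact hcon.le)).2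
    rw [m2] at this
    linarith
  obtain ⟨w1, w2⟩ := K.bounds ⟨s0.le, s1⟩ P.es hd
  have k1 := K.top s ⟨s0.le, s1⟩
  have k2 := K.bot y ⟨by linarith [hy.1], by linarith [hy.2]⟩
  rw [P.es] at k1
  have ez : x + ((c y).re - x) = (c y).re := by ring
  have ei : (c s).im - ((c s).im - (c y).im) = (c y).im := by ring
  have w2' := abs_le.1 w2
  refine ⟨(c s).im, (c y).re - x, (c s).im - (c y).im,
    geo K.fT K.fB K.ε0 K.εH k1 ?_ (K.gap x ⟨by linarith, by linarith⟩) w1 hd (by linarith) ?_ ?_⟩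
  · rw [ez, ei]; exact k2
  · have hr : DD c s y ∈ range c := ((mgc_sg K.loop).zero K.loop).1 m1
    have e1 : (DD c s y).re = x + ((c s).im - (c y).im) := by rw [DD_re', P.es]; ring
    have e2 : (DD c s y).im = (c s).im + ((c y).re - x) := by rw [DD_im', P.es]
    have := K.near hr (by rw [e1]; linarith) (by rw [e1]; linarith)
    rw [e1, e2] at this
    exact this
  · intro h
    have h' := abs_lt.1 h
    have e1 : (CC c s y).re = x + ((c y).re - x) + ((c s).im - (c y).im) := by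
      rw [CC_re']; ring
    have e2 : (CC c s y).im = (c s).im - ((c s).im - (c y).im) + ((c y).re - x) := by
      rw [CC_im', P.es]; ring
    have := K.above (z := CC c s y) (by rw [m2]; exact hρ.le) (by rw [e1]; linarith)
      (by rw [e1]; linarith)
    rw [e1, e2] at this
    exact this

/-- second case: squares to the left -/
theorem Cor.sqr_left (K : Cor c T B ε H a b t1 t2 t3) (A : Ang c (mgc c) θ g)
    (hne : Nf θ t1 t3 ≠ Nf θ 0 t2 + g) {x : ℝ} (h1 : a + 5 / 2 * H ≤ x)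
    (h2 : x ≤ b - 5 / 2 * H) :
    ∃ p d l, Sqr (fun x => T (-x)) (fun x => B (-x)) ε (-x) p d l := by
  have H0 := K.H0
  have hπ := Real.pi_pos
  obtain ⟨s, u, v, P⟩ := K.place h1 h2
  have o1 := K.o1
  have o2 := K.o2
  have o3 := K.o3
  have o4 := K.o4
  have s0 := P.s0
  have s1 := P.s1
  have u0 := P.u0
  have uv := P.uv
  have v1 := P.v1
  have per : c (1 + s) = c s := by rw [add_comm]; exact K.loop.per s
  obtain ⟨-, -, b1, b2⟩ := K.branches A h1 h2 P
  have ou : Out c u (1 + s) := K.far (by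
    rw [per, P.es, P.eu]; exact le_abs.2 (Or.inr (by linarith)))
  have ov : Out c v (1 + s) := K.far (by
    rw [per, P.es, P.ev]; exact le_abs.2 (Or.inl (by linarith)))
  have ru := out_range A (by linarith : u < 1 + s) (by linarith) ou
  have rv := out_range A (by linarith : v < 1 + s) (by linarith) ov
  rw [b1] at ru
  rw [b2] at rv
  obtain ⟨y, hy, m, e⟩ := cross (f := fun y => θ y (1 + s)) uv
    (A.cont.comp (f := fun y : ℝ => (y, 1 + s)) (by fun_prop) fun y hy =>
      ⟨by simp only; linarith [hy.2], by simp only; linarith [hy.1]⟩)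
    hne ru.1 ru.2 rv.1 rv.2 (α := 0) le_rfl (by positivity)
  obtain ⟨ρ, hρ, m1, m2⟩ := A.ex y (1 + s) (by linarith [hy.2]) (by linarith [hy.1])
  rw [e, Real.cos_add_int_mul_two_pi, Real.cos_zero, mul_one] at m1
  rw [e, Real.sin_add_int_mul_two_pi, Real.sin_zero, mul_zero] at m2
  have hd : |(c y).re - x| ≤ 23 / 10 * H := by
    by_contra hcon
    push Not at hcon
    have := (K.far (x := y) (y := 1 + s) (by
      rw [per, P.es, abs_sub_comm]; exact hcon.le)).1
    rw [m1] at this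
    linarith
  obtain ⟨w1, w2⟩ := K.bounds ⟨s0.le, s1⟩ P.es hd
  have k1 := K.top s ⟨s0.le, s1⟩
  have k2 := K.bot y ⟨by linarith [hy.1], by linarith [hy.2]⟩
  rw [P.es] at k1
  have w2' := abs_le.1 w2
  have hd' : |-((c y).re - x)| ≤ 23 / 10 * H := by rw [abs_neg]; exact hd
  refine ⟨(c s).im, -((c y).re - x), (c s).im - (c y).im,
    geo K.fT.neg K.fB.neg K.ε0 K.εH ?_ ?_ ?_ ?_ hd' (by linarith) ?_ ?_⟩
  · simp only [neg_neg]; exact k1
  · rw [show -(-x + -((c y).re - x)) = (c y).re by ring,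
      show (c s).im - ((c s).im - (c y).im) = (c y).im by ring]
    exact k2
  · simp only [neg_neg]; exact K.gap x ⟨by linarith, by linarith⟩
  · simp only [neg_neg]; exact w1
  · have hr : CC c y (1 + s) ∈ range c := ((mgc_sg K.loop).zero K.loop).1 m2
    have e1 : (CC c y (1 + s)).re = -(-x + ((c s).im - (c y).im)) := by
      rw [CC_re', per, P.es]; ring
    have e2 : (CC c y (1 + s)).im = (c s).im + -((c y).re - x) := by
      rw [CC_im', per, P.es]; ring
    have := K.near hr (by rw [e1]; linarith) (by rw [e1]; linarith)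
    rw [e1, e2] at this
    exact this
  · intro h
    have h' := abs_lt.1 h
    have e1 : (DD c y (1 + s)).re = -(-x + -((c y).re - x) + ((c s).im - (c y).im)) := by
      rw [DD_re', per]; ring
    have e2 : (DD c y (1 + s)).im = (c s).im - ((c s).im - (c y).im) + -((c y).re - x) := by
      rw [DD_im', per, P.es]; ring
    have := K.above (z := DD c y (1 + s)) (by rw [m1]; exact hρ.le) (by rw [e1]; linarith)
      (by rw [e1]; linarith)
    rw [e1, e2] at this
    exact this

/-- **A bulge in a corridor contains an inscribed square.** -/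
theorem Cor.main (K : Cor c T B ε H a b t1 t2 t3) {x0 x1 x2 : ℝ} (h1 : a + 5 / 2 * H ≤ x1)
    (h10 : x1 < x0) (h02 : x0 < x2) (h2 : x2 ≤ b - 5 / 2 * H)
    (hL : 0 < T x0 - B x0) (g1 : T x1 - B x1 ≤ (T x0 - B x0) / 2)
    (g2 : T x2 - B x2 ≤ (T x0 - B x0) / 2)
    (k1 : 200 * ε * (x0 - x1) ≤ (T x0 - B x0) ^ 2)
    (k2 : 200 * ε * (x2 - x0) ≤ (T x0 - B x0) ^ 2) : ¬ NoSq (range c) := by
  intro nosq
  obtain ⟨θ, g, A, ho⟩ := exists_odd K.loop K.inj nosq
  by_cases h : Nf θ 0 t2 = Nf θ t1 t3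
  · have hg : Nf θ t1 t3 ≠ Nf θ 0 t2 + g := by
      rw [h]
      intro h'
      have : g = 0 := by linarith
      rw [this] at ho
      exact absurd ho (by decide)
    refine area_main K.fT.neg K.fB.neg (a := -x0) (b := -x1) (L := T x0 - B x0) (by linarith)
      K.ε0 hL (by simp only [neg_neg]; exact le_rfl) (by simp only [neg_neg]; exact g1)
      (by rw [show -x1 - -x0 = x0 - x1 by ring]; exact k1) fun x hx => ?_
    have := K.sqr_left A hg (x := -x) (by linarith [hx.2]) (by linarith [hx.1])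
    rw [neg_neg] at this
    exact this
  · exact area_main K.fT K.fB (a := x0) (b := x2) (L := T x0 - B x0) h02 K.ε0 hL le_rfl g2 k2
      fun x hx => K.sqr_right A h (by linarith [hx.1]) (by linarith [hx.2])

end Pool.Agent.Y450.Bulge
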