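import Pool.Agent.Y450.Bulge.Area2
import Pool.Agent.W675.PegC

/-! Corridors: location of the further vertices of the squares on the chords. -/

set_option autoImplicit false
open Complex Set Topology Metric

namespace Pool.Agent.Y450.Bulge

open Pool.Agent.H763R2 Pool.Agent.H763R2.An Pool.Agent.H765R3.Peg Pool.Agent.W675.Peg
open Pool.Agent.H763R2.Dm (NoSq)

/-- a Jordan curve that crosses the strip `a ≤ Re z ≤ b` in two arcs close to flat graphs -/
structure Cor (c : ℝ → ℂ) (T B : ℝ → ℝ) (ε H a b t1 t2 t3 : ℝ) : Prop where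
  loop : Loop c
  inj : Inj c
  fT : Flat8 T
  fB : Flat8 B
  ε0 : 0 < ε
  εH : 100 * ε ≤ H
  o1 : 0 < t1
  o2 : t1 < t2
  o3 : t2 < t3
  o4 : t3 < 1
  top : ∀ t ∈ Icc 0 t1, |(c t).im - T (c t).re| ≤ ε
  topm : ∀ s t, 0 ≤ s → s ≤ t → t ≤ t1 → (c s).re ≤ (c t).re + ε
  bot : ∀ t ∈ Icc t2 t3, |(c t).im - B (c t).re| ≤ ε
  botm : ∀ s t, t2 ≤ s → s ≤ t → t ≤ t3 → (c t).re ≤ (c s).re + ε
  rgt : ∀ t ∈ Icc t1 t2, b ≤ (c t).re
  lft : ∀ t ∈ Icc t3 1, (c t).re ≤ a
  gap : ∀ x ∈ Icc a b, B x + 10 * ε ≤ T x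
  hgt : ∀ t, |(c t).im - (T (c t).re + B (c t).re) / 2| ≤ H

variable {c : ℝ → ℂ} {T B : ℝ → ℝ} {ε H a b t1 t2 t3 : ℝ}

theorem Cor.out_up (K : Cor c T B ε H a b t1 t2 t3) {v : ℂ}
    (h : (T v.re + B v.re) / 2 + H < v.im) : mgc c v < 0 := by
  have hno : ∀ s : ℝ, 0 ≤ s → ∀ t, c t ≠ v + s * I := by
    intro s hs t ht
    have h1 := (abs_le.1 (K.hgt t)).2
    have e1 : (c t).re = v.re := by rw [ht]; simp
    have e2 : (c t).im = v.im + s := by rw [ht]; simp
    rw [e1, e2] at h1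
    linarith
  have h1 : mgc c v ≤ 0 := mgc_le_of_dir K.loop (v := I) (by simp)
    fun s hs t ht => absurd ht (hno s hs t)
  refine lt_of_le_of_ne h1 fun h0 => ?_
  obtain ⟨t, ht⟩ := ((mgc_sg K.loop).zero K.loop).1 h0
  exact hno 0 le_rfl t (by rw [ht]; simp)

theorem Cor.out_dn (K : Cor c T B ε H a b t1 t2 t3) {v : ℂ}
    (h : v.im < (T v.re + B v.re) / 2 - H) : mgc c v < 0 := by
  have hno : ∀ s : ℝ, 0 ≤ s → ∀ t, c t ≠ v + s * -I := by
    intro s hs t ht
    have h1 := (abs_le.1 (K.hgt t)).1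
    have e1 : (c t).re = v.re := by rw [ht]; simp
    have e2 : (c t).im = v.im - s := by rw [ht]; simp; ring
    rw [e1, e2] at h1
    linarith
  have h1 : mgc c v ≤ 0 := mgc_le_of_dir K.loop (v := -I) (by simp)
    fun s hs t ht => absurd ht (hno s hs t)
  refine lt_of_le_of_ne h1 fun h0 => ?_
  obtain ⟨t, ht⟩ := ((mgc_sg K.loop).zero K.loop).1 h0
  exact hno 0 le_rfl t (by rw [ht]; simp)

theorem DD_re' (c : ℝ → ℂ) (x y : ℝ) : (DD c x y).re = (c x).re - ((c y).im - (c x).im) := by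
  rw [DD_eq]; simp; ring
theorem DD_im' (c : ℝ → ℂ) (x y : ℝ) : (DD c x y).im = (c x).im + ((c y).re - (c x).re) := by
  rw [DD_eq]; simp
theorem CC_re' (c : ℝ → ℂ) (x y : ℝ) : (CC c x y).re = (c y).re - ((c y).im - (c x).im) := by
  rw [CC_eq]; simp; ring
theorem CC_im' (c : ℝ → ℂ) (x y : ℝ) : (CC c x y).im = (c y).im + ((c y).re - (c x).re) := by
  rw [CC_eq]; simp

/-- both further vertices are outside -/
def Out (c : ℝ → ℂ) (x y : ℝ) : Prop := mgc c (DD c x y) < 0 ∧ mgc c (CC c x y) < 0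

/-- chords between points with a large horizontal distance -/
theorem Cor.far (K : Cor c T B ε H a b t1 t2 t3) {x y : ℝ}
    (h : 23 / 10 * H ≤ |(c y).re - (c x).re|) : Out c x y := by
  have H0 : 0 < H := by linarith [K.ε0, K.εH]
  have hx := abs_le.1 (K.hgt x)
  have hy := abs_le.1 (K.hgt y)
  have mT := K.fT (c y).re (c x).re
  have mB := K.fB (c y).re (c x).re
  set P := c x with hP
  set Q := c y with hQ
  have g1 := abs_le.1 mT
  have g2 := abs_le.1 mB
  have hv : |Q.im - P.im| ≤ 2 * H + |Q.re - P.re| / 8 := by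
    rw [abs_le]; constructor <;> linarith [g1.1, g1.2, g2.1, g2.2]
  have r1 := abs_le.1 (K.fT (DD c x y).re P.re)
  have r2 := abs_le.1 (K.fB (DD c x y).re P.re)
  have r3 := abs_le.1 (K.fT (CC c x y).re Q.re)
  have r4 := abs_le.1 (K.fB (CC c x y).re Q.re)
  have e1 : |(DD c x y).re - P.re| = |Q.im - P.im| := by
    rw [DD_re', ← hP, ← hQ, show P.re - (Q.im - P.im) - P.re = -(Q.im - P.im) by ring, abs_neg]
  have e2 : |(CC c x y).re - Q.re| = |Q.im - P.im| := by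
    rw [CC_re', ← hP, ← hQ, show Q.re - (Q.im - P.im) - Q.re = -(Q.im - P.im) by ring, abs_neg]
  rw [e1] at r1 r2
  rw [e2] at r3 r4
  have i1 : (DD c x y).im = P.im + (Q.re - P.re) := DD_im' c x y
  have i2 : (CC c x y).im = Q.im + (Q.re - P.re) := CC_im' c x y
  rcases le_total 0 (Q.re - P.re) with hs | hs
  · rw [abs_of_nonneg hs] at h hv
    constructor
    · apply K.out_up
      rw [i1]
      linarith [r1.2, r2.2]
    · apply K.out_up
      rw [i2]
      linarith [r3.2, r4.2]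
  · rw [abs_of_nonpos hs] at h hv
    constructor
    · apply K.out_dn
      rw [i1]
      linarith [r1.1, r2.1]
    · apply K.out_dn
      rw [i2]
      linarith [r3.1, r4.1]

/-- points of the curve over the open strip -/
theorem Cor.near (K : Cor c T B ε H a b t1 t2 t3) {z : ℂ} (hz : z ∈ range c) (h1 : a < z.re)
    (h2 : z.re < b) : |z.im - T z.re| ≤ ε ∨ |z.im - B z.re| ≤ ε := by
  obtain ⟨t, ht, rfl⟩ : ∃ t ∈ Ico (0:ℝ) 1, c t = z := by
    obtain ⟨t, rfl⟩ := hz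
    refine ⟨Int.fract t, ⟨Int.fract_nonneg t, Int.fract_lt_one t⟩, ?_⟩
    have := K.loop.per_int (Int.fract t) ⌊t⌋
    rw [Int.fract_add_floor] at this
    exact this.symm
  rcases le_total t t1 with k1 | k1
  · exact Or.inl (K.top t ⟨ht.1, k1⟩)
  rcases le_total t t2 with k2 | k2
  · exact absurd (K.rgt t ⟨k1, k2⟩) (not_le.2 h2)
  rcases le_total t t3 with k3 | k3
  · exact Or.inr (K.bot t ⟨k2, k3⟩)
  · exact absurd (K.lft t ⟨k3, ht.2.le⟩) (not_le.2 h1)

/-- points inside the curve over the open strip -/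
theorem Cor.above (K : Cor c T B ε H a b t1 t2 t3) {z : ℂ} (hz : 0 ≤ mgc c z) (h1 : a < z.re)
    (h2 : z.re < b) : B z.re - ε ≤ z.im := by
  obtain ⟨s, hs, t, ht⟩ := ray K.loop (v := -I) (by simp) hz
  have e1 : (c t).re = z.re := by rw [ht]; simp
  have e2 : (c t).im = z.im - s := by rw [ht]; simp; ring
  have hg := K.gap z.re ⟨h1.le, h2.le⟩
  have ε0 := K.ε0
  rcases K.near (mem_range_self t) (by rw [e1]; exact h1) (by rw [e1]; exact h2) with h | h
  · rw [e1, e2] at h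
    linarith [(abs_le.1 h).1]
  · rw [e1, e2] at h
    linarith [(abs_le.1 h).1]

/-- the geometric lemma -/
theorem geo {T B : ℝ → ℝ} {ε H x p d l : ℝ} (hT : Flat8 T) (hB : Flat8 B) (hε : 0 < ε)
    (hεH : 100 * ε ≤ H) (h1 : |p - T x| ≤ ε) (h2 : |p - l - B (x + d)| ≤ ε)
    (hg : B x + 10 * ε ≤ T x) (hgH : T x - B x ≤ 2 * H + 2 * ε) (hd : |d| ≤ 23 / 10 * H)
    (hl : |l| ≤ 23 / 10 * H)
    (h3 : |p + d - T (x + l)| ≤ ε ∨ |p + d - B (x + l)| ≤ ε)
    (h4 : |d + l| < 5 / 2 * H → B (x + d + l) - ε ≤ p - l + d) : Sqr T B ε x p d l := by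
  have a1 := abs_le.1 h1
  have a2 := abs_le.1 h2
  have tT := abs_le.1 (hT (x + l) x)
  have tB := abs_le.1 (hB (x + d) x)
  rw [show x + l - x = l by ring] at tT
  rw [show x + d - x = d by ring] at tB
  rcases h3 with h3 | h3
  · have a3 := abs_le.1 h3
    have kd : |d| ≤ |l| / 8 + 2 * ε := by
      rw [abs_le]; constructor <;> linarith [a1.1, a1.2, a3.1, a3.2, tT.1, tT.2]
    have l0 : 0 ≤ l := by
      by_contra hl0
      push Not at hl0
      rw [abs_of_neg hl0] at kd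
      linarith [a1.1, a2.2, tB.1, tB.2]
    rw [abs_of_nonneg l0] at kd hl
    have kl : l ≤ 208 / 100 * H := by linarith [a1.2, a2.1, tB.1, tB.2]
    refine ⟨l0, h1, h2, h3, h4 ?_⟩
    have : |d + l| ≤ |d| + l := by
      have := abs_add_le d l
      rwa [abs_of_nonneg l0] at this
    linarith
  · exfalso
    have a3 := abs_le.1 h3
    have sB := abs_le.1 (hB (x + l) x)
    rw [show x + l - x = l by ring] at sB
    have kdl : |d + l| ≤ |d| / 8 + |l| / 8 + 4 * ε := by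
      rw [abs_le]
      constructor <;> linarith [a1.1, a1.2, a2.1, a2.2, a3.1, a3.2, tB.1, tB.2, sB.1, sB.2]
    have h5 := h4 (by linarith)
    have uB := abs_le.1 (hB (x + d + l) (x + l))
    rw [show x + d + l - (x + l) = d by ring] at uB
    have q1 : l ≤ 2 * ε + |d| / 8 := by linarith [uB.1, a3.2]
    have q2 : T x - B x - |d| / 8 - 2 * ε ≤ l := by linarith [a1.1, a2.2, tB.1, tB.2]
    have q3 : |l| ≤ 2 * ε + |d| / 8 := by
      rw [abs_le]; constructor <;> linarith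
    have q4 : |d| ≤ (T x - B x) + |l| / 8 + 2 * ε := by
      rw [abs_le]
      constructor <;> linarith [a1.1, a1.2, a3.1, a3.2, sB.1, sB.2]
    linarith

end Pool.Agent.Y450.Bulge
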